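import Pool.Agent.WIR.StmtsE

/-!
# Squad WIR, block E, row CUT

Cut at `3m`.
-/

set_option autoImplicit false

open scoped BigOperators

namespace Pool.Agent.WIR.H76

open Pool.Agent.WIR

/-- Sums over the subsets of `1..M` as double sums. -/
theorem sum_split (a M : ℕ) (ha : a ≤ M) (F : Finset ℕ → ℕ) :
    ∑ O ∈ (Finset.Icc 1 M).powerset, F O =
      ∑ O1 ∈ (Finset.Icc 1 a).powerset, ∑ O2 ∈ (Finset.Icc (a + 1) M).powerset, F (O1 ∪ O2) := by
  rw [← Finset.sum_product']
  refine Finset.sum_nbij' (fun O => (O.filter (fun p => p ≤ a), O.filter (fun p => ¬ p ≤ a)))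
    (fun q => q.1 ∪ q.2) ?_ ?_ ?_ ?_ ?_
  · intro O hO
    rw [Finset.mem_powerset] at hO
    rw [Finset.mem_product, Finset.mem_powerset, Finset.mem_powerset]
    constructor
    · intro p hp
      rw [Finset.mem_filter] at hp
      have := Finset.mem_Icc.1 (hO hp.1)
      rw [Finset.mem_Icc]
      omega
    · intro p hp
      rw [Finset.mem_filter] at hp
      have := Finset.mem_Icc.1 (hO hp.1)
      rw [Finset.mem_Icc]
      omega
  · rintro ⟨O1, O2⟩ hq
    rw [Finset.mem_product, Finset.mem_powerset, Finset.mem_powerset] at hq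
    rw [Finset.mem_powerset]
    intro p hp
    rw [Finset.mem_union] at hp
    rw [Finset.mem_Icc]
    rcases hp with hp | hp
    · have := Finset.mem_Icc.1 (hq.1 hp)
      omega
    · have := Finset.mem_Icc.1 (hq.2 hp)
      omega
  · intro O _
    exact Finset.filter_union_filter_not_eq _ _
  · rintro ⟨O1, O2⟩ hq
    rw [Finset.mem_product, Finset.mem_powerset, Finset.mem_powerset] at hq
    have h1 : ∀ p ∈ O1, p ≤ a := fun p hp => (Finset.mem_Icc.1 (hq.1 hp)).2
    have h2 : ∀ p ∈ O2, ¬ p ≤ a := fun p hp => by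
      have := (Finset.mem_Icc.1 (hq.2 hp)).1
      omega
    apply Prod.ext
    · ext p
      simp only [Finset.mem_filter, Finset.mem_union]
      constructor
      · rintro ⟨h3 | h3, h4⟩
        · exact h3
        · exact absurd h4 (h2 p h3)
      · intro h3
        exact ⟨Or.inl h3, h1 p h3⟩
    · ext p
      simp only [Finset.mem_filter, Finset.mem_union]
      constructor
      · rintro ⟨h3 | h3, h4⟩
        · exact absurd (h1 p h3) h4
        · exact h3
      · intro h3
        exact ⟨Or.inr h3, h2 p h3⟩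
  · intro O _
    exact congrArg F (Finset.filter_union_filter_not_eq _ _).symm

/-- Elements of rank at least `m` do not count. -/
theorem fo_union (m a M : ℕ) (O1 O2 : Finset ℕ) (h1 : O1 ⊆ Finset.Icc 1 a)
    (h2 : O2 ⊆ Finset.Icc (a + 1) M) (hm : m ≤ O1.card) : FO m (O1 ∪ O2) = FO m O1 := by
  have h1' : ∀ p ∈ O1, p ≤ a := fun p hp => (Finset.mem_Icc.1 (h1 hp)).2
  have h2' : ∀ p ∈ O2, a < p := fun p hp => (Finset.mem_Icc.1 (h2 hp)).1
  have hdis : Disjoint O1 O2 := by
    rw [Finset.disjoint_left]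
    intro p hp hp'
    have := h1' p hp
    have := h2' p hp'
    omega
  have hz : (3 : ZMod (3 ^ m)) ^ m = 0 := by
    have h3 : ((3 ^ m : ℕ) : ZMod (3 ^ m)) = 0 := ZMod.natCast_self _
    rw [← h3]
    push_cast
    rfl
  unfold FO
  rw [Finset.sum_union hdis]
  have h4 : ∑ p ∈ O2, (3 : ZMod (3 ^ m)) ^ rk (O1 ∪ O2) p * (2 : ZMod (3 ^ m))⁻¹ ^ p = 0 := by
    refine Finset.sum_eq_zero fun p hp => ?_
    have h5 : O1.card ≤ rk (O1 ∪ O2) p := by
      unfold rk
      refine Finset.card_le_card fun q hq => ?_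
      rw [Finset.mem_filter, Finset.mem_union]
      have := h1' q hq
      have := h2' p hp
      exact ⟨Or.inl hq, by omega⟩
    rw [← Nat.sub_add_cancel (hm.trans h5), pow_add, hz, mul_zero, zero_mul]
  rw [h4, add_zero]
  refine Finset.sum_congr rfl fun p hp => ?_
  have h6 : rk (O1 ∪ O2) p = rk O1 p := by
    unfold rk
    congr 1
    ext q
    simp only [Finset.mem_filter, Finset.mem_union]
    constructor
    · rintro ⟨h7 | h7, h8⟩
      · exact ⟨h7, h8⟩
      · have := h2' q h7
        have := h1' p hp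
        omega
    · rintro ⟨h7, h8⟩
      exact ⟨Or.inl h7, h8⟩
  rw [h6]

/-- Few small sets. -/
theorem small_card (hoe : HoeStmt) (m : ℕ) :
    (((Finset.Icc 1 (3 * m)).powerset.filter (fun O => ¬ m ≤ O.card)).card : ℝ)
      ≤ 2 ^ (3 * m) * Real.exp (-((m : ℝ) / 6)) := by
  rcases Nat.eq_zero_or_pos m with rfl | hm
  · simp
  · have h1 := (hoe (3 * m) m (by omega) (Nat.cast_nonneg _)).2
    have h2 : (m : ℝ) ^ 2 / (2 * ((3 * m : ℕ) : ℝ)) = (m : ℝ) / 6 := by
      have : (m : ℝ) ≠ 0 := by positivity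
      push_cast
      field_simp
      norm_num
    rw [h2] at h1
    refine le_trans ?_ h1
    have h3 := Finset.sum_powerset_apply_card (fun r => if ¬ m ≤ r then (1 : ℕ) else 0)
      (x := Finset.Icc 1 (3 * m))
    rw [Nat.card_Icc, Nat.add_sub_cancel] at h3
    rw [Finset.card_filter, h3]
    push_cast
    rw [Finset.sum_filter]
    refine Finset.sum_le_sum fun r hr => ?_
    by_cases hrm : m ≤ r
    · simp only [hrm, not_true_eq_false, if_false, smul_zero]
      split_ifs
      · exact_mod_cast Nat.zero_le _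
      · simp
    · have h4 : (m : ℝ) ≤ 3 * (m : ℝ) - 2 * (r : ℝ) := by
        have h5 : (r : ℝ) + 1 ≤ m := by exact_mod_cast (by omega : r + 1 ≤ m)
        linarith
      simp [hrm, h4]

open Classical in
/-- The rest. -/
noncomputable def rest (m l M : ℕ) (z : ZMod (3 ^ m)) : ℕ :=
  ∑ O1 ∈ (Finset.Icc 1 (3 * m)).powerset.filter (fun O => ¬ m ≤ O.card),
    ∑ O2 ∈ (Finset.Icc (3 * m + 1) M).powerset,
      if (O1 ∪ O2).card = l ∧ FO m (O1 ∪ O2) = z then 1 else 0

open Classical in
/-- The exact identity. -/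
theorem cnt_cut (m l M : ℕ) (hM : 3 * m ≤ M) (hl : 3 * m ≤ l) (z : ZMod (3 ^ m)) :
    cnt M {l} m z = ∑ r ∈ Finset.Icc m (3 * m), cnt (3 * m) {r} m z * (M - 3 * m).choose (l - r) +
      rest m l M z := by
  have h1 : cnt M {l} m z = ∑ O1 ∈ (Finset.Icc 1 (3 * m)).powerset,
      ∑ O2 ∈ (Finset.Icc (3 * m + 1) M).powerset,
        if (O1 ∪ O2).card = l ∧ FO m (O1 ∪ O2) = z then 1 else 0 := by
    unfold cnt
    rw [Finset.card_filter, sum_split (3 * m) M hM]
    refine Finset.sum_congr rfl fun O1 _ => Finset.sum_congr rfl fun O2 _ => ?_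
    by_cases h2 : (O1 ∪ O2).card = l ∧ FO m (O1 ∪ O2) = z
    · rw [if_pos h2, if_pos ⟨Set.mem_singleton_iff.2 h2.1, h2.2⟩]
    · rw [if_neg h2, if_neg (fun h3 => h2 ⟨Set.mem_singleton_iff.1 h3.1, h3.2⟩)]
  have h2 : ∑ r ∈ Finset.Icc m (3 * m), cnt (3 * m) {r} m z * (M - 3 * m).choose (l - r) =
      ∑ O1 ∈ (Finset.Icc 1 (3 * m)).powerset.filter (fun O => m ≤ O.card),
        if FO m O1 = z then (M - 3 * m).choose (l - O1.card) else 0 := by
    have h3 : ∀ r, cnt (3 * m) {r} m z * (M - 3 * m).choose (l - r) =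
        ∑ O1 ∈ (Finset.Icc 1 (3 * m)).powerset, if O1.card = r then
          (if FO m O1 = z then (M - 3 * m).choose (l - O1.card) else 0) else 0 := by
      intro r
      unfold cnt
      rw [Finset.card_filter, Finset.sum_mul]
      refine Finset.sum_congr rfl fun O1 _ => ?_
      simp only [Set.mem_singleton_iff]
      by_cases h4 : O1.card = r
      · by_cases h5 : FO m O1 = z
        · simp [h4, h5]
        · simp [h5]
      · simp [h4]
    rw [Finset.sum_congr rfl fun r _ => h3 r, Finset.sum_comm, Finset.sum_filter]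
    refine Finset.sum_congr rfl fun O1 hO1 => ?_
    rw [Finset.sum_ite_eq]
    have h6 : O1.card ≤ 3 * m := by
      have := Finset.card_le_card (Finset.mem_powerset.1 hO1)
      simpa using this
    by_cases h7 : m ≤ O1.card
    · rw [if_pos (Finset.mem_Icc.2 ⟨h7, h6⟩), if_pos h7]
    · rw [if_neg (fun h8 => h7 (Finset.mem_Icc.1 h8).1), if_neg h7]
  rw [h1, h2, rest, ← Finset.sum_filter_add_sum_filter_not (Finset.Icc 1 (3 * m)).powerset
    (fun O => m ≤ O.card)]
  congr 1
  refine Finset.sum_congr rfl fun O1 hO1 => ?_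
  rw [Finset.mem_filter] at hO1
  have hO1s := Finset.mem_powerset.1 hO1.1
  have h6 : O1.card ≤ 3 * m := by
    have := Finset.card_le_card hO1s
    simpa using this
  have h8 : ∀ O2 ∈ (Finset.Icc (3 * m + 1) M).powerset,
      (if (O1 ∪ O2).card = l ∧ FO m (O1 ∪ O2) = z then 1 else 0) =
      if FO m O1 = z then (if O2.card = l - O1.card then 1 else 0) else 0 := by
    intro O2 hO2
    have hO2s := Finset.mem_powerset.1 hO2
    have hdis : Disjoint O1 O2 := by
      rw [Finset.disjoint_left]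
      intro p hp hp'
      have := Finset.mem_Icc.1 (hO1s hp)
      have := Finset.mem_Icc.1 (hO2s hp')
      omega
    rw [fo_union m (3 * m) M O1 O2 hO1s hO2s hO1.2, Finset.card_union_of_disjoint hdis]
    have h9 : (O1.card + O2.card = l) ↔ (O2.card = l - O1.card) := by omega
    by_cases h10 : FO m O1 = z
    · simp only [h10, and_true, if_true, h9]
    · simp [h10]
  rw [Finset.sum_congr rfl h8]
  by_cases h10 : FO m O1 = z
  · simp only [h10, if_true]
    rw [← Finset.card_filter, ← Finset.powersetCard_eq_filter, Finset.card_powersetCard,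
      Nat.card_Icc]
    congr 1
    omega
  · simp [h10]

open Classical in
/-- The mass of the rest. -/
theorem rest_sum (m l M : ℕ) (hM : 3 * m ≤ M) : ∑ z, rest m l M z ≤
    ((Finset.Icc 1 (3 * m)).powerset.filter (fun O => ¬ m ≤ O.card)).card *
      2 ^ (M - 3 * m) := by
  unfold rest
  rw [Finset.sum_comm, ← smul_eq_mul (a := Finset.card _), ← Finset.sum_const]
  refine Finset.sum_le_sum fun O1 _ => ?_
  rw [Finset.sum_comm]
  have h1 : 2 ^ (M - 3 * m) = ∑ _O2 ∈ (Finset.Icc (3 * m + 1) M).powerset, 1 := by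
    rw [Finset.sum_const, smul_eq_mul, mul_one, Finset.card_powerset, Nat.card_Icc]
    congr 1
    omega
  rw [h1]
  refine Finset.sum_le_sum fun O2 _ => ?_
  calc ∑ z : ZMod (3 ^ m), (if (O1 ∪ O2).card = l ∧ FO m (O1 ∪ O2) = z then 1 else 0)
      ≤ ∑ z : ZMod (3 ^ m), (if FO m (O1 ∪ O2) = z then 1 else 0) := by
        refine Finset.sum_le_sum fun z _ => ?_
        by_cases h2 : FO m (O1 ∪ O2) = z
        · rw [if_pos h2]
          split_ifs <;> omega
        · rw [if_neg h2, if_neg (fun h3 => h2 h3.2)]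
    _ = 1 := by
        rw [Finset.sum_ite_eq]
        simp

/-- CUT. -/
theorem cut (hoe : HoeStmt) : CutStmt := by
  intro m l M hM hl
  constructor
  · intro z
    rw [cnt_cut m l M hM hl z]
    exact Nat.le_add_right _ _
  · have h1 : (∑ z : ZMod (3 ^ m), (cnt M {l} m z : ℝ)) - ∑ z : ZMod (3 ^ m),
        ∑ r ∈ Finset.Icc m (3 * m),
          (cnt (3 * m) {r} m z : ℝ) * ((M - 3 * m).choose (l - r) : ℝ) =
        ((∑ z, rest m l M z : ℕ) : ℝ) := by
      rw [← Finset.sum_sub_distrib]
      push_cast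
      refine Finset.sum_congr rfl fun z _ => ?_
      rw [cnt_cut m l M hM hl z]
      push_cast
      ring
    rw [h1]
    have h2 : ((∑ z, rest m l M z : ℕ) : ℝ) ≤
        (((Finset.Icc 1 (3 * m)).powerset.filter (fun O => ¬ m ≤ O.card)).card : ℝ) *
          2 ^ (M - 3 * m) := by
      exact_mod_cast rest_sum m l M hM
    have h3 := small_card hoe m
    have h4 : (2 : ℝ) ^ M = 2 ^ (3 * m) * 2 ^ (M - 3 * m) := by
      rw [← pow_add]
      congr 1
      omega
    rw [h4]
    calc _ ≤ _ := h2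
      _ ≤ (2 ^ (3 * m) * Real.exp (-((m : ℝ) / 6))) * 2 ^ (M - 3 * m) :=
          mul_le_mul_of_nonneg_right h3 (by positivity)
      _ = _ := by ring

end Pool.Agent.WIR.H76
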