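import Pool.Agent.WIR.StmtsE

/-!
# Squad WIR, block E, row PSF

The density is positive (finite level).
-/

set_option autoImplicit false

open scoped BigOperators Topology
open Filter

namespace Pool.Agent.WIR.H76

open Pool.Agent.WIR

theorem two_inv (n : ℕ) : (2 : ZMod (3 ^ n)) * (2 : ZMod (3 ^ n))⁻¹ = 1 := by
  have h := ZMod.coe_mul_inv_eq_one (n := 3 ^ n) 2
    (Nat.Coprime.pow_right n (by decide : Nat.Coprime 2 3))
  simpa using h

theorem two_pow_inv (n j : ℕ) : (2 : ZMod (3 ^ n)) ^ j * (2 : ZMod (3 ^ n))⁻¹ ^ j = 1 := by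
  rw [← mul_pow, two_inv, one_pow]

theorem pj_hom {m n : ℕ} (h : m ≤ n) (x : ZMod (3 ^ n)) :
    pj m n x = ZMod.castHom (pow_dvd_pow 3 h) (ZMod (3 ^ m)) x := by
  unfold pj
  rw [ZMod.castHom_apply, ZMod.natCast_val]

/-- The points above `2^(-j) (1 + 3 y)`. -/
theorem lift (N r j : ℕ) (hr : r ≤ N) (y : ZMod (3 ^ r)) (a : ZMod (3 ^ (N + 1)))
    (h : pj (r + 1) (N + 1) a =
      (2 : ZMod (3 ^ (r + 1)))⁻¹ ^ j * (1 + 3 * ((y.val : ℕ) : ZMod (3 ^ (r + 1))))) :
    ∃ x : ZMod (3 ^ N), pj r N x = y ∧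
      a = (2 : ZMod (3 ^ (N + 1)))⁻¹ ^ j * (1 + 3 * ((x.val : ℕ) : ZMod (3 ^ (N + 1)))) := by
  have hr1 : r + 1 ≤ N + 1 := Nat.succ_le_succ hr
  set z : ZMod (3 ^ (N + 1)) := 2 ^ j * a - 1 with hz
  have h1 : ((z.val : ℕ) : ZMod (3 ^ (r + 1))) = ((3 * y.val : ℕ) : ZMod (3 ^ (r + 1))) := by
    have h2 : ((z.val : ℕ) : ZMod (3 ^ (r + 1))) =
        ZMod.castHom (pow_dvd_pow 3 hr1) (ZMod (3 ^ (r + 1))) z := (pj_hom hr1 z)
    have h3 := pj_hom hr1 a
    rw [h] at h3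
    rw [h2, hz, map_sub, map_mul, map_pow, map_one, ← h3, map_ofNat, ← mul_assoc,
      two_pow_inv]
    push_cast
    ring
  rw [ZMod.natCast_eq_natCast_iff] at h1
  have h3 : 3 ∣ z.val := by
    have h4 : z.val ≡ 3 * y.val [MOD 3] := h1.of_dvd (dvd_pow_self 3 (Nat.succ_ne_zero r))
    exact (Nat.modEq_zero_iff_dvd).1 (h4.trans ((Nat.modEq_zero_iff_dvd).2 (dvd_mul_right 3 _)))
  obtain ⟨q, hq⟩ := h3
  have h5 : q ≡ y.val [MOD 3 ^ r] := by
    rw [hq, pow_succ, mul_comm (3 ^ r) 3] at h1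
    exact Nat.ModEq.mul_left_cancel' (by norm_num) h1
  have h6 : q < 3 ^ N := by
    have h7 := ZMod.val_lt z
    rw [hq, pow_succ] at h7
    omega
  refine ⟨(q : ZMod (3 ^ N)), ?_, ?_⟩
  · unfold pj
    rw [ZMod.val_natCast_of_lt h6]
    have h8 : ((q : ℕ) : ZMod (3 ^ r)) = ((y.val : ℕ) : ZMod (3 ^ r)) :=
      (ZMod.natCast_eq_natCast_iff _ _ _).2 h5
    rw [h8]
    exact ZMod.natCast_zmod_val y
  · rw [ZMod.val_natCast_of_lt h6]
    have h9 : z = 3 * ((q : ℕ) : ZMod (3 ^ (N + 1))) := by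
      have h10 := ZMod.natCast_zmod_val z
      rw [hq] at h10
      rw [← h10]
      push_cast
      ring
    rw [← h9, hz]
    have h11 := two_pow_inv (N + 1) j
    calc a = ((2 : ZMod (3 ^ (N + 1))) ^ j * (2 : ZMod (3 ^ (N + 1)))⁻¹ ^ j) * a := by
          rw [h11, one_mul]
      _ = _ := by ring

/-- A value of the density which is not zero is at least `3^r / 2^(3r)`. -/
theorem W_ge (r : ℕ) (y : ZMod (3 ^ r)) (h : 0 < W r y) : (3 : ℝ) ^ r / 2 ^ (3 * r) ≤ W r y := by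
  unfold W at h ⊢
  have h1 : cnt (3 * r) (Set.Ici r) r y ≠ 0 := by
    intro h2
    rw [h2] at h
    simp at h
  have h3 : (1 : ℝ) ≤ (cnt (3 * r) (Set.Ici r) r y : ℝ) := by
    exact_mod_cast Nat.one_le_iff_ne_zero.2 h1
  exact le_mul_of_one_le_right (by positivity) h3

/-- Markov. -/
theorem markov {α : Type} [Fintype α] (g : α → ℝ) (c S : ℝ) (hc : 0 < c) (hg : ∀ a, 0 ≤ g a)
    (hS : ∑ a, g a ≤ S) (p : α → Prop) [DecidablePred p] (hp : ∀ a, p a → c ≤ g a) :
    ((Finset.univ.filter p).card : ℝ) ≤ S / c := by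
  rw [le_div_iff₀ hc]
  calc ((Finset.univ.filter p).card : ℝ) * c = ∑ _a ∈ Finset.univ.filter p, c := by
        rw [Finset.sum_const, nsmul_eq_mul]
    _ ≤ ∑ a ∈ Finset.univ.filter p, g a :=
        Finset.sum_le_sum fun a ha => hp a (Finset.mem_filter.1 ha).2
    _ ≤ ∑ a, g a := Finset.sum_le_sum_of_subset_of_nonneg (Finset.subset_univ _)
        fun a _ _ => hg a
    _ ≤ S := hS

open Classical in
/-- The points above one unit. -/
theorem perGamma (hwin : WinStmt) (hwex : WexStmt) (hwe2 : We2Stmt) (N r j : ℕ) (hr : r ≤ N)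
    (hj : 1 ≤ j) (y : ZMod (3 ^ r)) (γ : ZMod (3 ^ (r + 1)))
    (hγ : γ = (2 : ZMod (3 ^ (r + 1)))⁻¹ ^ j * (1 + 3 * ((y.val : ℕ) : ZMod (3 ^ (r + 1)))))
    (v c : ℝ) (hc : 0 < c) (hv : v ≤ W r y) (hcv : 2 * c ≤ 3 * (1 / 2) ^ j * (v / 2)) :
    ((Finset.univ.filter (fun a : ZMod (3 ^ (N + 1)) =>
        pj (r + 1) (N + 1) a = γ ∧ W (N + 1) a < c)).card : ℝ) ≤
      ((Finset.univ.filter (fun x : ZMod (3 ^ N) => pj r N x = y ∧ W N x < W r y / 2)).card : ℝ) +
        3 ^ (N + 1) * Real.exp (-(((N + 1 : ℕ) : ℝ) / 6)) / c := by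
  set G : ZMod (3 ^ (N + 1)) → ℝ := fun a =>
    3 ^ (N + 1) / 2 ^ (3 * N + j) * (cnt (3 * N + j) (Set.Ici (N + 1)) (N + 1) a : ℝ) with hG
  set φ : ZMod (3 ^ N) → ZMod (3 ^ (N + 1)) := fun x =>
    (2 : ZMod (3 ^ (N + 1)))⁻¹ ^ j * (1 + 3 * ((x.val : ℕ) : ZMod (3 ^ (N + 1)))) with hφ
  have h2j : (0 : ℝ) < 2 ^ j := by positivity
  -- the good points
  have h1 : ∀ a : ZMod (3 ^ (N + 1)), pj (r + 1) (N + 1) a = γ →
      (∃ x, (pj r N x = y ∧ W N x < W r y / 2) ∧ φ x = a) ∨ 2 * c ≤ G a := by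
    intro a ha
    obtain ⟨x, hx, hxa⟩ := lift N r j hr y a (ha.trans hγ)
    by_cases hlt : W N x < W r y / 2
    · exact Or.inl ⟨x, ⟨hx, hlt⟩, hxa.symm⟩
    · right
      push Not at hlt
      have h3 := hwin N j x hj
      rw [← hxa] at h3
      have h4 : (cnt (3 * N) (Set.Ici N) N x : ℝ) ≤
          (cnt (3 * N + j) (Set.Ici (N + 1)) (N + 1) a : ℝ) := by exact_mod_cast h3
      have h5 : 3 * (1 / 2) ^ j * W N x ≤ G a := by
        have h6 : 3 * (1 / 2 : ℝ) ^ j * W N x =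
            3 ^ (N + 1) / 2 ^ (3 * N + j) * (cnt (3 * N) (Set.Ici N) N x : ℝ) := by
          unfold W
          rw [pow_add (2 : ℝ), pow_succ (3 : ℝ), one_div, inv_pow]
          field_simp
        rw [h6]
        exact mul_le_mul_of_nonneg_left h4 (by positivity)
      have h7 : 3 * (1 / 2 : ℝ) ^ j * (v / 2) ≤ 3 * (1 / 2) ^ j * W N x := by
        apply mul_le_mul_of_nonneg_left _ (by positivity)
        linarith
      linarith
  have hWc : ∀ a, W (N + 1) a =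
      3 ^ (N + 1) / 2 ^ (3 * N + 3) * (cnt (3 * N + 3) (Set.Ici (N + 1)) (N + 1) a : ℝ) :=
    fun a => rfl
  have hexp : 0 ≤ 3 ^ (N + 1) * Real.exp (-(((N + 1 : ℕ) : ℝ) / 6)) / c := by positivity
  by_cases hj3 : j ≤ 3
  · have h8 : ∀ a, G a ≤ W (N + 1) a := by
      intro a
      have h9 := hwe2 (N + 1) (3 * N + j) (3 * N + 3) a (by omega)
      have h10 : (2 : ℝ) ^ (3 * N + 3 - (3 * N + j)) *
          (cnt (3 * N + j) (Set.Ici (N + 1)) (N + 1) a : ℝ) ≤
          (cnt (3 * N + 3) (Set.Ici (N + 1)) (N + 1) a : ℝ) := by exact_mod_cast h9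
      rw [hWc]
      have h11 : (2 : ℝ) ^ (3 * N + 3) = 2 ^ (3 * N + j) * 2 ^ (3 * N + 3 - (3 * N + j)) := by
        rw [← pow_add]
        congr 1
        omega
      have h12 : G a = 3 ^ (N + 1) / 2 ^ (3 * N + 3) * ((2 : ℝ) ^ (3 * N + 3 - (3 * N + j)) *
          (cnt (3 * N + j) (Set.Ici (N + 1)) (N + 1) a : ℝ)) := by
        rw [hG, h11]
        field_simp
      rw [h12]
      exact mul_le_mul_of_nonneg_left h10 (by positivity)
    have h13 : Finset.univ.filter (fun a : ZMod (3 ^ (N + 1)) =>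
        pj (r + 1) (N + 1) a = γ ∧ W (N + 1) a < c) ⊆
        (Finset.univ.filter (fun x : ZMod (3 ^ N) => pj r N x = y ∧ W N x < W r y / 2)).image φ := by
      intro a ha
      rw [Finset.mem_filter] at ha
      rw [Finset.mem_image]
      rcases h1 a ha.2.1 with ⟨x, hx, hxa⟩ | h14
      · exact ⟨x, Finset.mem_filter.2 ⟨Finset.mem_univ _, hx⟩, hxa⟩
      · have := h8 a
        linarith [ha.2.2]
    have h15 := (Finset.card_le_card h13).trans Finset.card_image_le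
    have h16 : ((Finset.univ.filter (fun a : ZMod (3 ^ (N + 1)) =>
        pj (r + 1) (N + 1) a = γ ∧ W (N + 1) a < c)).card : ℝ) ≤
      ((Finset.univ.filter (fun x : ZMod (3 ^ N) => pj r N x = y ∧
        W N x < W r y / 2)).card : ℝ) := by exact_mod_cast h15
    linarith
  · push Not at hj3
    obtain ⟨hx1, hx2⟩ := hwex (N + 1) (3 * N + 3) (3 * N + j) (by omega) (by omega)
    have hpw : (2 : ℝ) ^ (3 * N + j) = 2 ^ (3 * N + 3) * 2 ^ (3 * N + j - (3 * N + 3)) := by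
      rw [← pow_add]
      congr 1
      omega
    have h20 : ∀ a, G a - W (N + 1) a = 3 ^ (N + 1) / 2 ^ (3 * N + j) *
        ((cnt (3 * N + j) (Set.Ici (N + 1)) (N + 1) a : ℝ) -
          2 ^ (3 * N + j - (3 * N + 3)) * (cnt (3 * N + 3) (Set.Ici (N + 1)) (N + 1) a : ℝ)) := by
      intro a
      rw [hWc, hG, hpw]
      field_simp
    have h21 : ∀ a, 0 ≤ G a - W (N + 1) a := by
      intro a
      rw [h20]
      have h22 : (2 : ℝ) ^ (3 * N + j - (3 * N + 3)) *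
          (cnt (3 * N + 3) (Set.Ici (N + 1)) (N + 1) a : ℝ) ≤
          (cnt (3 * N + j) (Set.Ici (N + 1)) (N + 1) a : ℝ) := by exact_mod_cast hx1 a
      exact mul_nonneg (by positivity) (by linarith)
    have h23 : ∑ a, (G a - W (N + 1) a) ≤
        3 ^ (N + 1) * Real.exp (-(((N + 1 : ℕ) : ℝ) / 6)) := by
      simp only [h20]
      rw [← Finset.mul_sum, Finset.sum_sub_distrib, ← Finset.mul_sum]
      have h24 : (3 : ℝ) ^ (N + 1) / 2 ^ (3 * N + j) * (2 ^ (3 * N + j) *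
          Real.exp (-(((N + 1 : ℕ) : ℝ) / 6))) =
          3 ^ (N + 1) * Real.exp (-(((N + 1 : ℕ) : ℝ) / 6)) := by
        field_simp
      rw [← h24]
      exact mul_le_mul_of_nonneg_left hx2 (by positivity)
    have h25 := markov (fun a => G a - W (N + 1) a) c _ hc h21 h23
      (fun a => c ≤ G a - W (N + 1) a) (fun a ha => ha)
    have h26 : Finset.univ.filter (fun a : ZMod (3 ^ (N + 1)) =>
        pj (r + 1) (N + 1) a = γ ∧ W (N + 1) a < c) ⊆
        (Finset.univ.filter (fun x : ZMod (3 ^ N) => pj r N x = y ∧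
          W N x < W r y / 2)).image φ ∪
          Finset.univ.filter (fun a => c ≤ G a - W (N + 1) a) := by
      intro a ha
      rw [Finset.mem_filter] at ha
      rw [Finset.mem_union, Finset.mem_image, Finset.mem_filter]
      rcases h1 a ha.2.1 with ⟨x, hx, hxa⟩ | h14
      · exact Or.inl ⟨x, Finset.mem_filter.2 ⟨Finset.mem_univ _, hx⟩, hxa⟩
      · right
        refine ⟨Finset.mem_univ _, ?_⟩
        linarith [ha.2.2]
    have h27 := (Finset.card_le_card h26).trans (Finset.card_union_le _ _)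
    have h28 : ((Finset.univ.filter (fun x : ZMod (3 ^ N) => pj r N x = y ∧
          W N x < W r y / 2)).image φ).card ≤ (Finset.univ.filter (fun x : ZMod (3 ^ N) =>
            pj r N x = y ∧ W N x < W r y / 2)).card := Finset.card_image_le
    have h29 : ((Finset.univ.filter (fun a : ZMod (3 ^ (N + 1)) =>
        pj (r + 1) (N + 1) a = γ ∧ W (N + 1) a < c)).card : ℝ) ≤
      ((Finset.univ.filter (fun x : ZMod (3 ^ N) => pj r N x = y ∧
        W N x < W r y / 2)).card : ℝ) +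
        ((Finset.univ.filter (fun a => c ≤ G a - W (N + 1) a)).card : ℝ) := by
      have := h27.trans (Nat.add_le_add_right h28 _)
      exact_mod_cast this
    linarith

open Classical in
/-- The choice of `y`. -/
theorem choose_y (hwms : WmsStmt) (r N : ℕ) (hr : 6 ≤ r) (η : ℝ)
    (hη : ∑ x : ZMod (3 ^ N), |W N x - W r (pj r N x)| ≤ η * 3 ^ N) :
    ∃ y : ZMod (3 ^ r), 0 < W r y ∧
      ((Finset.univ.filter (fun x : ZMod (3 ^ N) => pj r N x = y ∧
        W N x < W r y / 2)).card : ℝ) * 3 ^ r ≤ 4 * η * 3 ^ N := by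
  have hη0 : 0 ≤ η := by
    have h1 : 0 ≤ ∑ x : ZMod (3 ^ N), |W N x - W r (pj r N x)| :=
      Finset.sum_nonneg fun x _ => abs_nonneg _
    have h2 : (0 : ℝ) < 3 ^ N := by positivity
    by_contra h3
    push Not at h3
    nlinarith
  obtain ⟨hW0, -, hWl⟩ := hwms r
  have hhalf : (3 : ℝ) ^ r / 2 ≤ ∑ z, W r z := by
    refine le_trans ?_ hWl
    have h1 : Real.exp (-((r : ℝ) / 6)) ≤ 1 / 2 := by
      have h2 : Real.exp (-((r : ℝ) / 6)) ≤ Real.exp (-1) := by
        apply Real.exp_le_exp.2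
        have : (6 : ℝ) ≤ r := by exact_mod_cast hr
        linarith
      have h3 : Real.exp (-1) ≤ 1 / 2 := by
        rw [Real.exp_neg, inv_eq_one_div]
        apply one_div_le_one_div_of_le (by norm_num)
        have := Real.exp_one_gt_d9
        linarith
      exact h2.trans h3
    have h4 : (0 : ℝ) < 3 ^ r := by positivity
    nlinarith
  have h3r : (0 : ℝ) < 3 ^ r := by positivity
  have h3N : (0 : ℝ) < 3 ^ N := by positivity
  by_contra hcon
  push Not at hcon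
  set β : ZMod (3 ^ r) → ℝ := fun y =>
    ((Finset.univ.filter (fun x : ZMod (3 ^ N) => pj r N x = y ∧ W N x < W r y / 2)).card : ℝ)
    with hβ
  -- the sum over the fibres
  have h5 : ∑ y, (W r y / 2) * β y ≤ ∑ x : ZMod (3 ^ N), |W N x - W r (pj r N x)| := by
    rw [← Finset.sum_fiberwise Finset.univ (fun x : ZMod (3 ^ N) => pj r N x)
      (fun x => |W N x - W r (pj r N x)|)]
    refine Finset.sum_le_sum fun y _ => ?_
    have h6 : (W r y / 2) * β y = ∑ _x ∈ Finset.univ.filter (fun x : ZMod (3 ^ N) =>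
        pj r N x = y ∧ W N x < W r y / 2), W r y / 2 := by
      rw [Finset.sum_const, nsmul_eq_mul, mul_comm]
    rw [h6]
    calc ∑ _x ∈ Finset.univ.filter (fun x : ZMod (3 ^ N) =>
        pj r N x = y ∧ W N x < W r y / 2), W r y / 2
        ≤ ∑ x ∈ Finset.univ.filter (fun x : ZMod (3 ^ N) =>
        pj r N x = y ∧ W N x < W r y / 2), |W N x - W r (pj r N x)| := by
          refine Finset.sum_le_sum fun x hx => ?_
          rw [Finset.mem_filter] at hx
          rw [hx.2.1]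
          have h7 := neg_abs_le (W N x - W r y)
          linarith [hx.2.2]
      _ ≤ _ := by
          apply Finset.sum_le_sum_of_subset_of_nonneg
          · intro x hx
            rw [Finset.mem_filter] at hx ⊢
            exact ⟨hx.1, hx.2.1⟩
          · intro x _ _
            exact abs_nonneg _
  have h8 : ∀ y, (W r y / 2) * (4 * η * 3 ^ N) ≤ (W r y / 2) * (β y * 3 ^ r) := by
    intro y
    rcases (hW0 y).eq_or_lt with h9 | h9
    · rw [← h9]; simp
    · exact mul_le_mul_of_nonneg_left (hcon y h9).le (by linarith)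
  obtain ⟨y0, hy0⟩ : ∃ y, 0 < W r y := by
    by_contra h9
    push Not at h9
    have h10 : ∑ z, W r z ≤ 0 := Finset.sum_nonpos fun z _ => h9 z
    linarith
  have h11 : ∑ y, (W r y / 2) * (4 * η * 3 ^ N) < ∑ y, (W r y / 2) * (β y * 3 ^ r) :=
    Finset.sum_lt_sum (fun y _ => h8 y) ⟨y0, Finset.mem_univ _,
      mul_lt_mul_of_pos_left (hcon y0 hy0) (by linarith)⟩
  have h12 : ∑ y, (W r y / 2) * (4 * η * 3 ^ N) = (∑ y, W r y) * (2 * η * 3 ^ N) := by
    rw [Finset.sum_mul]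
    exact Finset.sum_congr rfl fun y _ => by ring
  have h13 : ∑ y, (W r y / 2) * (β y * 3 ^ r) = (∑ y, (W r y / 2) * β y) * 3 ^ r := by
    rw [Finset.sum_mul]
    exact Finset.sum_congr rfl fun y _ => by ring
  rw [h12, h13] at h11
  have h14 : (3 : ℝ) ^ r / 2 * (2 * η * 3 ^ N) ≤ (∑ y, W r y) * (2 * η * 3 ^ N) :=
    mul_le_mul_of_nonneg_right hhalf (by positivity)
  have h15 : (∑ y, (W r y / 2) * β y) * 3 ^ r ≤ η * 3 ^ N * 3 ^ r :=
    mul_le_mul_of_nonneg_right (h5.trans hη) h3r.le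
  have h16 : (3 : ℝ) ^ r / 2 * (2 * η * 3 ^ N) = η * 3 ^ N * 3 ^ r := by ring
  linarith

/-- The units of `Z/3^(r+1)`. -/
theorem unit_rep (hgen : GenStmt) (r : ℕ) (y : ZMod (3 ^ r)) (γ : ZMod (3 ^ (r + 1)))
    (hγ : IsUnit γ) : ∃ j : ℕ, 1 ≤ j ∧ j ≤ 2 * 3 ^ r ∧
      γ = (2 : ZMod (3 ^ (r + 1)))⁻¹ ^ j * (1 + 3 * ((y.val : ℕ) : ZMod (3 ^ (r + 1)))) := by
  have h1 : IsUnit (1 + 3 * ((y.val : ℕ) : ZMod (3 ^ (r + 1)))) := by
    have h2 : (1 + 3 * ((y.val : ℕ) : ZMod (3 ^ (r + 1)))) =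
        ((1 + 3 * y.val : ℕ) : ZMod (3 ^ (r + 1))) := by push_cast; ring
    rw [h2, ZMod.isUnit_iff_coprime]
    apply Nat.Coprime.pow_right
    simp
  obtain ⟨g, hg⟩ := h1
  obtain ⟨j, hj1, hj2, hj⟩ := hgen r (γ * ((g⁻¹ : (ZMod (3 ^ (r + 1)))ˣ) : ZMod (3 ^ (r + 1))))
    (hγ.mul (Units.isUnit _))
  refine ⟨j, hj1, hj2, ?_⟩
  rw [← hj, ← hg, mul_assoc, Units.inv_mul, mul_one]

/-- PSF. -/
theorem psf (h1 : WtlStmt) (h2 : WmsStmt) (h3 : GenStmt) (h4 : WinStmt) (h5 : WexStmt)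
    (h6 : We2Stmt) : PsfStmt := by
  classical
  intro ε hε
  obtain ⟨η, hη, hηs⟩ := h1
  obtain ⟨r, hr6, hrη⟩ : ∃ r, 6 ≤ r ∧ η r ≤ ε / 8 := by
    have h7 := (hη.eventually_lt_const (show (0 : ℝ) < ε / 8 by linarith)).and
      (eventually_ge_atTop 6)
    obtain ⟨r, hr⟩ := h7.exists
    exact ⟨r, hr.2, hr.1.le⟩
  set v : ℝ := (3 : ℝ) ^ r / 2 ^ (3 * r) with hv
  have hv0 : 0 < v := by positivity
  set c : ℝ := 3 / 4 * (1 / 2) ^ (2 * 3 ^ r) * v with hc
  have hc0 : 0 < c := by positivity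
  have hexp : Tendsto (fun N : ℕ => (3 : ℝ) ^ (r + 1) *
      (Real.exp (-(((N + 1 : ℕ) : ℝ) / 6)) / c)) atTop (𝓝 0) := by
    have h7 : Tendsto (fun N : ℕ => Real.exp (-(((N + 1 : ℕ) : ℝ) / 6))) atTop (𝓝 0) := by
      apply Real.tendsto_exp_neg_atTop_nhds_zero.comp
      apply Tendsto.atTop_div_const (by norm_num)
      exact tendsto_natCast_atTop_atTop.comp (tendsto_add_atTop_nat 1)
    have h8 := (h7.div_const c).const_mul ((3 : ℝ) ^ (r + 1))
    simpa using h8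
  obtain ⟨N1, hN1⟩ := eventually_atTop.1
    (hexp.eventually_lt_const (show (0 : ℝ) < ε / 2 by linarith))
  refine ⟨c, hc0, max r N1, ?_⟩
  intro N hN
  have hrN : r ≤ N := (le_max_left _ _).trans hN
  have hN1N : N1 ≤ N := (le_max_right _ _).trans hN
  obtain ⟨y, hy0, hy⟩ := choose_y h2 r N hr6 (η r) (hηs r N hrN)
  set B : ℝ := ((Finset.univ.filter (fun x : ZMod (3 ^ N) => pj r N x = y ∧
        W N x < W r y / 2)).card : ℝ) +
        3 ^ (N + 1) * Real.exp (-(((N + 1 : ℕ) : ℝ) / 6)) / c with hB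
  have hB0 : 0 ≤ B := by positivity
  -- one unit
  have h10 : ∀ γ : ZMod (3 ^ (r + 1)), (((Finset.univ.filter (fun a : ZMod (3 ^ (N + 1)) =>
      IsUnit a ∧ W (N + 1) a < c)).filter (fun a => pj (r + 1) (N + 1) a = γ)).card : ℝ) ≤ B := by
    intro γ
    by_cases hγ : IsUnit γ
    · obtain ⟨j, hj1, hj2, hj⟩ := unit_rep h3 r y γ hγ
      have h11 := perGamma h4 h5 h6 N r j hrN hj1 y γ hj v c hc0 (W_ge r y hy0) (by
        have h12 : (1 / 2 : ℝ) ^ (2 * 3 ^ r) ≤ (1 / 2) ^ j :=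
          pow_le_pow_of_le_one (by norm_num) (by norm_num) hj2
        rw [hc]
        nlinarith)
      refine le_trans ?_ h11
      have h13 : ((Finset.univ.filter (fun a : ZMod (3 ^ (N + 1)) =>
          IsUnit a ∧ W (N + 1) a < c)).filter (fun a => pj (r + 1) (N + 1) a = γ)) ⊆
          Finset.univ.filter (fun a : ZMod (3 ^ (N + 1)) =>
            pj (r + 1) (N + 1) a = γ ∧ W (N + 1) a < c) := by
        intro a ha
        rw [Finset.mem_filter, Finset.mem_filter] at ha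
        rw [Finset.mem_filter]
        exact ⟨Finset.mem_univ _, ha.2, ha.1.2.2⟩
      exact_mod_cast Finset.card_le_card h13
    · have h13 : ((Finset.univ.filter (fun a : ZMod (3 ^ (N + 1)) =>
          IsUnit a ∧ W (N + 1) a < c)).filter (fun a => pj (r + 1) (N + 1) a = γ)) = ∅ := by
        rw [Finset.filter_eq_empty_iff]
        intro a ha hag
        rw [Finset.mem_filter] at ha
        apply hγ
        rw [← hag, pj_hom (Nat.succ_le_succ hrN)]
        exact ha.2.1.map _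
      rw [h13, Finset.card_empty, Nat.cast_zero]
      exact hB0
  have h14 := Finset.card_eq_sum_card_fiberwise (f := fun a : ZMod (3 ^ (N + 1)) =>
    pj (r + 1) (N + 1) a) (s := Finset.univ.filter (fun a : ZMod (3 ^ (N + 1)) =>
      IsUnit a ∧ W (N + 1) a < c)) (t := Finset.univ) (fun a _ => Finset.mem_coe.2 (Finset.mem_univ _))
  have h15 : ((Finset.univ.filter (fun a : ZMod (3 ^ (N + 1)) =>
      IsUnit a ∧ W (N + 1) a < c)).card : ℝ) ≤ 3 ^ (r + 1) * B := by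
    rw [h14]
    push_cast
    refine (Finset.sum_le_sum fun γ _ => h10 γ).trans ?_
    rw [Finset.sum_const, nsmul_eq_mul, Finset.card_univ, ZMod.card]
    push_cast
    exact le_rfl
  have h16 : (3 : ℝ) ^ (r + 1) * B ≤ ε * 3 ^ (N + 1) := by
    have h17 := hN1 N hN1N
    have h18 : (0 : ℝ) < 3 ^ (N + 1) := by positivity
    have h19 : (0 : ℝ) < 3 ^ N := by positivity
    rw [hB, mul_add]
    have h20 : (3 : ℝ) ^ (r + 1) * ((Finset.univ.filter (fun x : ZMod (3 ^ N) => pj r N x = y ∧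
        W N x < W r y / 2)).card : ℝ) ≤ ε / 2 * 3 ^ (N + 1) := by
      have h21 : 4 * η r * 3 ^ N ≤ ε / 2 * 3 ^ N :=
        mul_le_mul_of_nonneg_right (by linarith) h19.le
      have h22 := hy.trans h21
      rw [pow_succ, pow_succ]
      linarith
    have h23 : (3 : ℝ) ^ (r + 1) * (3 ^ (N + 1) * Real.exp (-(((N + 1 : ℕ) : ℝ) / 6)) / c) ≤
        ε / 2 * 3 ^ (N + 1) := by
      have h24 : (3 : ℝ) ^ (r + 1) * (3 ^ (N + 1) * Real.exp (-(((N + 1 : ℕ) : ℝ) / 6)) / c) =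
          ((3 : ℝ) ^ (r + 1) * (Real.exp (-(((N + 1 : ℕ) : ℝ) / 6)) / c)) * 3 ^ (N + 1) := by ring
      rw [h24]
      exact mul_le_mul_of_nonneg_right h17.le h18.le
    linarith
  have h30 := h15.trans h16
  refine le_trans (le_of_eq ?_) h30
  congr 2

end Pool.Agent.WIR.H76
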